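import Pool.Agent.P.MP_746f10_nt.Lval
import Pool.Agent.P.MP_26a8c3_nt.QE.Psi

/-! A zero free half plane bounds the sifted values at one of real characters from below. -/

namespace Pool.Agent.P.MP_746f10_nt.PZ

open Finset Filter Topology
open scoped ArithmeticFunction.vonMangoldt
open Pool.Agent.P.MP_26a8c3_nt
open ArithmeticFunction (vonMangoldt_nonneg)

/-- a real character as a Dirichlet character -/
noncomputable def toDC (χ : RC) [NeZero χ.r] : DirichletCharacter ℂ χ.r where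
  toFun a := (χ.χ a.val : ℂ)
  map_one' := by rw [ZMod.val_one_eq_one_mod, χ.per, χ.one, Complex.ofReal_one]
  map_mul' a b := by rw [ZMod.val_mul, χ.per, χ.mul, Complex.ofReal_mul]
  map_nonunit' a h := by
    rw [χ.zero _ fun k => h ?_, Complex.ofReal_zero]
    rw [← ZMod.natCast_zmod_val a]
    exact (ZMod.isUnit_iff_coprime _ _).2 k

lemma toDC_apply (χ : RC) [NeZero χ.r] (n : ℕ) : toDC χ n = (χ.χ n : ℂ) := by
  show ((χ.χ (n : ZMod χ.r).val : ℝ) : ℂ) = _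
  rw [ZMod.val_natCast, χ.per]

lemma toDC_ne (χ : RC) [NeZero χ.r] : toDC χ ≠ 1 := by
  intro h
  obtain ⟨u, hu⟩ := χ.nontriv
  have h1 := toDC_apply χ u
  rw [h, hu] at h1
  by_cases k : IsUnit (u : ZMod χ.r)
  · rw [MulChar.one_apply k] at h1; norm_num at h1
  · rw [MulChar.map_nonunit _ k] at h1; norm_num at h1

lemma psiR {θ : ℝ} (hθ : θ < 1) (hZ : QE.ZF θ) : ∃ κ C : ℝ, 0 < κ ∧ κ ≤ 1 ∧ 0 < C ∧
    ∀ (χ : RC) (X : ℕ) (Y : ℝ), χ.r ≤ Y → X ≤ Y →
      |∑ n ∈ Ico 1 X, Λ n * χ.χ n| ≤ C * Y ^ (1 - κ) := by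
  obtain ⟨κ, C, h0, h1, hC, h, -⟩ := QE.psi hθ hZ
  refine ⟨κ, C, h0, h1, hC, fun χ X Y hr hX => ?_⟩
  have : NeZero χ.r := ⟨χ.r_pos.ne'⟩
  have h2 := h χ.r (toDC χ) (X - 1) Y (toDC_ne χ) hr
    (le_trans (by exact_mod_cast Nat.sub_le X 1) hX)
  have e : Icc 1 (X - 1) = Ico 1 X := by ext n; simp only [mem_Icc, mem_Ico]; omega
  simp only [toDC_apply, e] at h2
  rw [← Real.norm_eq_abs, ← Complex.norm_real]
  push_cast
  exact h2

/-- dyadic partial summation -/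
lemma dyad {κ C : ℝ} (h0 : 0 < κ) (hC : 0 < C) (a f : ℕ → ℝ) {A : ℕ} (hA : 1 ≤ A)
    (ha : ∀ (X : ℕ) (Y : ℝ), A ≤ Y → X ≤ Y → |∑ n ∈ Ico 1 X, a n| ≤ C * Y ^ (1 - κ))
    (f0 : ∀ n, A ≤ n → 0 ≤ f n) (f1 : ∀ n, A ≤ n → f (n + 1) ≤ f n)
    (f2 : ∀ n, A ≤ n → f n ≤ 2 / n) (J : ℕ) : ∀ N, A ≤ N → N ≤ A * 2 ^ J →
    |∑ n ∈ Ico A N, f n * a n| ≤ 8 * C * ∑ j ∈ range J, ((2 : ℝ) ^ (-κ)) ^ j := by
  induction J with
  | zero => intro N k1 k2; rw [Ico_eq_empty (by omega)]; simp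
  | succ J ih =>
    intro N k1 k2
    rw [sum_range_succ, mul_add]
    rcases le_total N (A * 2 ^ J) with k3 | k3
    · exact le_add_of_le_of_nonneg (ih N k1 k3) (by positivity)
    obtain ⟨M, hM⟩ : ∃ M, M = A * 2 ^ J := ⟨_, rfl⟩
    have m1 : A ≤ M := hM ▸ Nat.le_mul_of_pos_right _ (by positivity)
    have m2 : 2 ^ J ≤ M := hM ▸ Nat.le_mul_of_pos_left _ hA
    rw [pow_succ, ← mul_assoc, ← hM] at k2
    rw [← hM] at k3 ih
    have M0 : (0 : ℝ) < M := by exact_mod_cast (by omega : 0 < M)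
    rw [← sum_Ico_consecutive _ m1 k3]
    refine (abs_add_le _ _).trans (add_le_add (ih M m1 le_rfl) ?_)
    have hY : (A : ℝ) ≤ 2 * M := by exact_mod_cast (by omega : A ≤ 2 * M)
    refine (abel_le_real a f M N (2 * (C * (2 * M : ℝ) ^ (1 - κ))) (fun n hn => f0 n (by omega))
      (fun n hn => f1 n (by omega)) (fun x x1 x2 => ?_) k3).trans ?_
    · rw [eq_sub_of_add_eq' (sum_Ico_consecutive a (show 1 ≤ M by omega) x1), two_mul]
      exact (abs_sub _ _).trans (add_le_add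
        (ha x _ hY (by exact_mod_cast (by omega : x ≤ 2 * M))) (ha M _ hY (by linarith)))
    · have e1 : (2 * M : ℝ) ^ (1 - κ) ≤ 2 * (M * (M : ℝ) ^ (-κ)) := by
        rw [Real.mul_rpow (by norm_num) M0.le, sub_eq_add_neg, Real.rpow_add M0, Real.rpow_one]
        refine mul_le_mul_of_nonneg_right ?_ (by positivity)
        simpa using Real.rpow_le_rpow_of_exponent_le (one_le_two (α := ℝ))
          (show 1 + -κ ≤ 1 by linarith)
      have e2 : (M : ℝ) ^ (-κ) ≤ ((2 : ℝ) ^ (-κ)) ^ J := by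
        rw [← Real.rpow_mul_natCast (by norm_num), mul_comm, Real.rpow_natCast_mul (by norm_num)]
        exact Real.rpow_le_rpow_of_nonpos (by positivity) (by exact_mod_cast m2) (by linarith)
      calc _ ≤ 2 * (C * (2 * (M * ((2 : ℝ) ^ (-κ)) ^ J))) * (2 / M) := by
            refine mul_le_mul ?_ (f2 M m1) (f0 M m1) (by positivity)
            gcongr
            exact e1.trans (by gcongr)
        _ = _ := by field_simp; ring

lemma nonprime : ∃ B : ℝ, ∀ s : Finset ℕ, ∑ n ∈ s, (if n.Prime then 0 else Λ n) / (n : ℝ) ≤ B := by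
  have h := ArithmeticFunction.vonMangoldt.summable_residueClass_non_primes_div (0 : ZMod 1)
  have e : ∀ n : ℕ, ArithmeticFunction.vonMangoldt.residueClass (0 : ZMod 1) n = Λ n := fun n =>
    Set.indicator_of_mem (s := {n : ℕ | (n : ZMod 1) = 0}) (Subsingleton.elim (n : ZMod 1) 0) _
  simp only [e] at h
  exact ⟨_, fun s => h.sum_le_tsum s fun n _ => div_nonneg
    (by split_ifs; exacts [le_rfl, vonMangoldt_nonneg]) (Nat.cast_nonneg _)⟩

lemma primeSum {θ : ℝ} (hθ : θ < 1) (hZ : QE.ZF θ) : ∃ B : ℝ, ∀ (χ : RC) (y N : ℕ) (h : ℝ),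
    χ.r ≤ y → 2 ≤ y → y < N → 0 < h →
      -B ≤ ∑ p ∈ N.primesBelow, pw h p / p * ri y p * χ.χ p := by
  obtain ⟨κ, C, h0, -, hC, H⟩ := psiR hθ hZ
  obtain ⟨B, hB⟩ := nonprime
  have r1 : (2 : ℝ) ^ (-κ) < 1 := Real.rpow_lt_one_of_one_lt_of_neg one_lt_two (by linarith)
  have r0 : (0 : ℝ) ≤ (2 : ℝ) ^ (-κ) := by positivity
  refine ⟨8 * C * (1 - (2 : ℝ) ^ (-κ))⁻¹ + B, fun χ y N h hr hy hN hh => ?_⟩
  have hl : ∀ n : ℕ, y + 1 ≤ n → 1 ≤ Real.log n ∧ (0 : ℝ) < n := fun n hn => by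
    have : (3 : ℝ) ≤ n := by exact_mod_cast (by omega : 3 ≤ n)
    refine ⟨?_, by linarith⟩
    rw [Real.le_log_iff_exp_le (by linarith)]
    linarith [Real.exp_one_lt_d9]
  set f : ℕ → ℝ := fun n => pw h n / (n * Real.log n) with hf
  have f0 : ∀ n, y + 1 ≤ n → 0 ≤ f n := fun n hn => by
    have := hl n hn
    exact div_nonneg (pw_pos _ _).le (mul_nonneg this.2.le (by linarith))
  have f2 : ∀ n, y + 1 ≤ n → f n ≤ 1 / n := fun n hn => by
    obtain ⟨a1, a2⟩ := hl n hn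
    exact div_le_div₀ zero_le_one (pw_le_one hh.le n) a2 (le_mul_of_one_le_right a2.le a1)
  have k1 := dyad h0 hC (fun n => Λ n * χ.χ n) f (A := y + 1) (by omega)
    (fun X Y a1 a2 => H χ X Y (le_trans (by exact_mod_cast (by omega : χ.r ≤ y + 1)) a1) a2) f0
    (fun n hn => by
      obtain ⟨a1, a2⟩ := hl n hn
      have a3 : (n : ℝ) ≤ (n + 1 : ℕ) := by push_cast; linarith
      exact div_le_div₀ (pw_pos _ _).le (pw_anti hh.le (by omega) (by omega)) (by positivity)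
        (mul_le_mul a3 (Real.log_le_log a2 a3) (by linarith) (by positivity)))
    (fun n hn => (f2 n hn).trans (by have := (hl n hn).2; gcongr; norm_num)) N N hN
    (Nat.lt_two_pow_self.le.trans (Nat.le_mul_of_pos_left _ (by omega)))
  have k2 : ∑ j ∈ range N, ((2 : ℝ) ^ (-κ)) ^ j ≤ (1 - (2 : ℝ) ^ (-κ))⁻¹ :=
    tsum_geometric_of_lt_one r0 r1 ▸
      (summable_geometric_of_lt_one r0 r1).sum_le_tsum _ fun _ _ => by positivity
  have k3 : ∑ p ∈ N.primesBelow, pw h p / p * ri y p * χ.χ p =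
      ∑ n ∈ Ico (y + 1) N, if n.Prime then f n * (Λ n * χ.χ n) else 0 := by
    rw [Nat.primesBelow, sum_filter, range_eq_Ico,
      ← sum_Ico_consecutive _ (Nat.zero_le (y + 1)) hN, sum_eq_zero, zero_add]
    · refine sum_congr rfl fun n hn => ?_
      have a1 := (mem_Ico.1 hn).1
      obtain ⟨a2, a3⟩ := hl n a1
      split_ifs with hp
      · have : ri y n = 1 := if_pos fun p a b => by
          rw [(Nat.prime_dvd_prime_iff_eq a hp).1 b]; omega
        rw [this, ArithmeticFunction.vonMangoldt_apply_prime hp, hf]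
        field_simp
      · rfl
    · intro n hn
      split_ifs with hp
      · rw [ri_eq_zero hp.two_le (by have := (mem_Ico.1 hn).2; omega), mul_zero, zero_mul]
      · rfl
  have k4 : ∑ n ∈ Ico (y + 1) N, f n * (Λ n * χ.χ n) - B ≤
      ∑ n ∈ Ico (y + 1) N, if n.Prime then f n * (Λ n * χ.χ n) else 0 := by
    refine le_trans (sub_le_sub_left (hB (Ico (y + 1) N)) _) ?_
    rw [← sum_sub_distrib]
    refine sum_le_sum fun n hn => ?_
    have a1 := (mem_Ico.1 hn).1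
    split_ifs
    · simp
    · rw [sub_nonpos, div_eq_mul_one_div, mul_comm (Λ n) (1 / _)]
      exact (mul_le_mul_of_nonneg_left (mul_le_of_le_one_right vonMangoldt_nonneg (χ.le_one n))
        (f0 n a1)).trans (mul_le_mul_of_nonneg_right (f2 n a1) vonMangoldt_nonneg)
  rw [k3]
  have k5 := (abs_le.1 (k1.trans (mul_le_mul_of_nonneg_left k2 (by positivity)))).1
  linarith

/-- no real character is exceptional -/
theorem ell_ge {θ : ℝ} (hθ : θ < 1) (hZ : QE.ZF θ) {c : ℕ} {C : ℝ} (hc : 1 ≤ c) (hC : 1 ≤ C)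
    (hL : LS2St c C) : ∃ η : ℝ, 0 < η ∧ ∀ (z0 : ℕ) (χ : RC), 2 ≤ z0 → χ.r ≤ z0 →
      η ≤ χ.ell (z0 ^ c) := by
  obtain ⟨B, hB⟩ := primeSum hθ hZ
  refine ⟨Real.exp (-B) / 2, by positivity, fun z0 χ hz hr => ?_⟩
  obtain ⟨y, hy⟩ : ∃ y, y = z0 ^ c := ⟨_, rfl⟩
  have hzy : z0 ≤ y := hy ▸ Nat.le_self_pow (by omega) z0
  have hl : 0 < Real.log y := Real.log_pos (by exact_mod_cast (by omega : 1 < y))
  have hh : 0 < Real.exp (-B) / 2 / (C * Real.log y) := by positivity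
  have b1 := (abs_le.1 (hL.ell (by linarith) hz hy (by omega) hh χ hr)).2
  have b2 : Real.exp (-B) ≤ Lr y χ.χ fun n => pw (Real.exp (-B) / 2 / (C * Real.log y)) n / n := by
    refine ge_of_tendsto (euler hh χ.one χ.mul χ.abs_le) ?_
    filter_upwards [eventually_gt_atTop y] with N hN
    refine (Real.exp_le_exp.2 (hB χ y N _ (by omega) (by omega) hN hh)).trans ?_
    rw [Real.exp_sum]
    refine prod_le_prod (fun _ _ => (Real.exp_pos _).le) fun p hp => ?_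
    obtain ⟨a1, a2⟩ := loc_bd y hh hp
    have a3 := χ.le_one p
    generalize pw _ p / p * ri y p = x at a1 a2
    rw [le_inv_comm₀ (Real.exp_pos _) (by nlinarith), ← Real.exp_neg]
    linarith [Real.add_one_le_exp (-(x * χ.χ p))]
  have e1 : C * (Real.exp (-B) / 2 / (C * Real.log y) * Real.log y) = Real.exp (-B) / 2 := by
    field_simp
  rw [← hy]
  linarith

end Pool.Agent.P.MP_746f10_nt.PZ
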