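import Pool.Agent.P.MP_746f10_nt.PV.All
import Pool.Agent.P.MP_746f10_nt.PZ.Ell

/-! Primes in prescribed positions and almost primes everywhere, from a zero free half plane. -/

namespace Pool.Agent.P.MP_746f10_nt.PZ

open Finset PV PV.MainVP Pool.Agent.P.MP_26a8c3_nt

/-- the theorem -/
def S_MainZ : Prop :=
  ∀ (k m : ℕ) (J : Finset (Fin k)), 183 * m < 50 * J.card → ∃ (A : ℕ) (C c : ℝ), 0 < C ∧ 0 < c ∧
    ∀ (H K : ℕ) (F : Fin k → Finset (ℕ × ℕ)), 2 ≤ H → 1 ≤ K → (∀ i, K ≤ (F i).card) →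
    (∀ i, ∀ x ∈ F i, 1 ≤ x.1 ∧ x.1 ≤ H ∧ x.2 ≤ H) →
    (Set.ncard {t : Fin k → ℕ × ℕ | (∀ i, t i ∈ F i) ∧
      (∀ p : ℕ, p.Prime → ∃ n : ℕ, ∀ i, ¬ p ∣ (t i).1 * n + (t i).2) ∧
      ¬ ∃ (n : ℕ) (I : Finset (Fin k)), H ≤ n ∧ n ≤ H ^ A ∧ I ⊆ J ∧ I.card = m + 1 ∧
        Set.InjOn t I ∧ (∀ i ∈ I, ((t i).1 * n + (t i).2).Prime) ∧
        ∀ i, ((t i).1 * n + (t i).2).primeFactorsList.length ≤ 2} : ℝ) ≤
      C * (K : ℝ) ^ (-c) * ∏ i, ((F i).card : ℝ)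

theorem mainZ {θ : ℝ} (hθ : θ < 1) (hZ : QE.ZF θ) : S_MainZ := by
  intro k m J hJ
  obtain ⟨c, C, hc, hC, hL⟩ := ls2
  obtain ⟨η, hη, hell⟩ := ell_ge hθ hZ hc hC hL
  obtain ⟨K1, K0, e, u, w0, θ1, hK1, he, -, -, -, hcell⟩ := cellV_all m k c C η hc hC hL hη
  obtain ⟨C0, c0, hC0, hc0, hred⟩ := P2.pRedG Cel.pBox k K1 hK1
  obtain ⟨A1, hA1⟩ := pNorm3 (k * K1) K0
  obtain ⟨A0, hA0⟩ : ∃ A0, A0 = 2 + 2 * A1 + w0 := ⟨_, rfl⟩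
  refine ⟨A0 * (u + 2), C0, c0, hC0, hc0, fun H K F hH hK hF hb => ?_⟩
  refine hred (Cc m H (A0 * (u + 2)) J) K F hK hF fun x hx hxF hadm => ?_
  have hpow : ∀ {i j : ℕ}, i ≤ j → H ^ i ≤ H ^ j := fun h => Nat.pow_le_pow_right (by omega) h
  have hsm : ∀ {j : ℕ}, j ≤ A0 → j ≤ H ^ A0 := fun h =>
    (Nat.lt_pow_self (by omega : 1 < H)).le.trans (hpow h)
  obtain ⟨D, hD, hDA, hN⟩ := hA1 (Fin k × Fin K1) (fun l => (x l).1) (fun l => (x l).2) H (by simp)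
    hH (fun l => hb l.1 _ (hxF l)) hadm hx
  obtain ⟨n0, hn0, hco⟩ := Cel.Norm.exists_shift _ _ hD hadm
  have hv : 2 * (H * (D * D)) ≤ H ^ A0 := by
    calc 2 * (H * (D * D)) ≤ H * (H * (H ^ A1 * H ^ A1)) :=
          Nat.mul_le_mul hH (Nat.mul_le_mul_left _ (Nat.mul_le_mul hDA hDA))
      _ = H ^ (2 + 2 * A1) := by ring
      _ ≤ _ := hpow (by omega)
  have b1 : H ^ A0 ≤ (H ^ A0) ^ e := Nat.le_self_pow (by omega) _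
  have b2 : (H ^ A0) ^ e ≤ ((H ^ A0) ^ e) ^ 2 := Nat.le_self_pow two_ne_zero _
  have b3 : 2 ≤ H ^ A0 := hsm (by omega)
  obtain ⟨n, hn1, hn2, hG⟩ := hcell _ _ _ (H ^ A0) J (hN D n0 dvd_rfl hn0 hco) hv (hsm (by omega))
    hJ (Or.inl fun χ h => Or.inl (hell _ χ (by omega) (by omega)))
  exact fin x hx Subset.rfl hH hn0 hv le_rfl le_rfl hn1 hn2 hG

end Pool.Agent.P.MP_746f10_nt.PZ
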